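import Mathlib
import Pool.Agent.R29.RootedNV

set_option autoImplicit false
set_option linter.unusedSectionVars false

/-!
# The power of `x` in the Tutte polynomial of a rooted graph (MP_4c49f5_co)

For every rooted graph the exponent of the highest power of `x` which divides the Tutte polynomial
is the number of the leaves incident to the root.

Proof. A leaf at the root gives a factor `x`, so let there be no such leaf. It is shown that
`T(0, y) ≠ 0` for all small `y > 0`. With `u = y - 1` the number `± T(0, y)` is the sum over all edge
sets `A` of `u^|A|` times the product over the vertices different from the root of `1/u` (for the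
vertices joined to the root by `A`) and `-1` (for the others). More generally let the factor of an
unreached vertex `v` be `-y^l(v)`. If `v` is a leaf with `l(v) = 0` and with neighbour `b`, then the
edge sets which reach `b` cancel; `v` and `b` can be removed and the edges at `b` increase the
exponents `l` of the neighbours of `b`. If there are no such leaves, then the sum is positive for all
small `y > 0`, and even at least `c y^(m-1)` where `m ≥ 1` is the number of edges and `c > 0`. This is
proved by deletion and contraction of an edge from the root to a vertex `a`; if `a` has only one other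
edge, which goes to `b`, and `l(a) = 0`, then the sum is `1 - y` times the one of the contraction plus
`y` times the part of it which reaches `b`.
-/

namespace Pool.Agent.Results.MP_4c49f5_co.RootLeaves

open Finset

variable {V E : Type}

/-- The simple graph on `V` in which two different vertices are adjacent if some edge in `A` of the
multigraph (given by the ends `ends e = (u, v)` of its edges `e`) joins them. -/
def under (ends : E → V × V) (A : Finset E) : SimpleGraph V :=
  SimpleGraph.fromRel fun u v => ∃ e ∈ A, ends e = (u, v)

/-- The set of the vertices of the component of the root `r` in the spanning subgraph `(V, A)`. -/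
def rootComp (ends : E → V × V) (r : V) (A : Finset E) : Set V :=
  {v | (under ends A).Reachable r v}

/-- `F` is feasible: it is the edge set of a tree containing the root `r`. That is, all edges of `F`
are in the component of `r` in `(V, F)`, and this component, which is connected, has one vertex more
than edges. -/
def IsFeasible (ends : E → V × V) (r : V) (F : Finset E) : Prop :=
  (∀ e ∈ F, (ends e).1 ∈ rootComp ends r F) ∧ Nat.card (rootComp ends r F) = F.card + 1

open Classical in
/-- The rank of `A`: the largest size of a feasible set contained in `A`. -/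
noncomputable def rank (ends : E → V × V) (r : V) (A : Finset E) : ℕ :=
  (A.powerset.filter (IsFeasible ends r)).sup Finset.card

/-- The Tutte polynomial of the rooted graph, `∑_A (x-1)^(r(E)-r(A)) (y-1)^(|A|-r(A))`, with
`x = X 0` and `y = X 1`. -/
noncomputable def tutte [Fintype E] (ends : E → V × V) (r : V) : MvPolynomial (Fin 2) ℤ :=
  ∑ A : Finset E, (MvPolynomial.X 0 - 1) ^ (rank ends r univ - rank ends r A) *
    (MvPolynomial.X 1 - 1) ^ (A.card - rank ends r A)

/-- The leaves incident to the root `r`: the vertices `v ≠ r` such that some edge joins `v` and `r`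
and no other edge which is not a loop is incident to `v`. -/
def rootLeaves (ends : E → V × V) (r : V) : Set V :=
  {v | v ≠ r ∧ ∃ e, (ends e = (r, v) ∨ ends e = (v, r)) ∧
    ∀ f, (ends f).1 ≠ (ends f).2 → ((ends f).1 = v ∨ (ends f).2 = v) → f = e}

open Pool.Agent.R29.Rooted Filter Topology

theorem rootComp_eq [DecidableEq V] [DecidableEq E] (ends : E → V × V) (r : V) (A : Finset E) :
    rootComp ends r A = reach ends A {r} := by
  have hadj : ∀ u v, (under ends A).Adj u v ↔ u ≠ v ∧
      ∃ e ∈ A, ends e = (u, v) ∨ ends e = (v, u) := by
    intro u v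
    unfold under
    rw [SimpleGraph.fromRel_adj]
    constructor
    · rintro ⟨h, ⟨e, he, h1⟩ | ⟨e, he, h1⟩⟩
      · exact ⟨h, e, he, Or.inl h1⟩
      · exact ⟨h, e, he, Or.inr h1⟩
    · rintro ⟨h, e, he, h1 | h1⟩
      · exact ⟨h, Or.inl ⟨e, he, h1⟩⟩
      · exact ⟨h, Or.inr ⟨e, he, h1⟩⟩
  apply Set.Subset.antisymm
  · rintro v ⟨p⟩ S hS hc
    have key : ∀ u v, (under ends A).Walk u v → u ∈ S → v ∈ S := by
      intro u v p
      induction p with
      | nil => exact id
      | cons h _ ih =>
        intro hu
        apply ih
        rw [hadj] at h
        obtain ⟨_, e, he, h1 | h1⟩ := h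
        · have := hc e he
          rw [h1] at this
          exact this.mp hu
        · have := hc e he
          rw [h1] at this
          exact this.mpr hu
    exact key _ _ p (hS rfl)
  · refine reach_min ?_ ?_
    · rintro v rfl
      exact SimpleGraph.Reachable.refl _
    · intro e he
      have h1 : (under ends A).Reachable (ends e).1 (ends e).2 := by
        by_cases h : (ends e).1 = (ends e).2
        · rw [h]
        · exact SimpleGraph.Adj.reachable ((hadj _ _).mpr ⟨h, e, he, Or.inl rfl⟩)
      exact ⟨fun h => SimpleGraph.Reachable.trans h h1,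
        fun h => SimpleGraph.Reachable.trans h h1.symm⟩

variable [Finite V] [DecidableEq V] [DecidableEq E]

/-- no edge of `A` leaves the vertex `v`, which is not a root -/
theorem notMem_reach {ends : E → V × V} {A : Finset E} {R : Set V} {v : V}
    (h : ∀ e ∈ A, (ends e).1 = v ↔ (ends e).2 = v) (hv : v ∉ R) : v ∉ reach ends A R := by
  intro hc
  have := reach_min (ends := ends) (A := A) (R := R) (S := {v}ᶜ)
    (fun x hx => by rintro rfl; exact hv hx)
    (fun e he => by
      have := h e he
      simp only [Set.mem_compl_iff, Set.mem_singleton_iff]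
      exact not_congr this) hc
  exact this rfl

theorem reach_add {ends : E → V × V} {A : Finset E} {r : V} {v : V}
    (h : ∀ e ∈ A, (ends e).1 = v ↔ (ends e).2 = v) {e : E} {x : V} (hj : Joins ends e x v)
    (hx : x ∈ reach ends A {r}) :
    reach ends (insert e A) {r} = insert v (reach ends A {r}) := by
  apply Set.Subset.antisymm
  · refine reach_min ?_ ?_
    · exact sub_reach.trans (Set.subset_insert _ _)
    · intro f hf
      rcases mem_insert.mp hf with rfl | hf
      · rw [hj.mem_iff]
        exact iff_of_true (Set.mem_insert_of_mem _ hx) (Set.mem_insert _ _)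
      · have h1 := h f hf
        have h2 := reach_closed (ends := ends) A {r} f hf
        simp only [Set.mem_insert_iff]
        rw [h1, h2]
  · intro y hy
    rcases hy with rfl | hy
    · have := reach_closed (ends := ends) (insert e A) {r} e (mem_insert_self _ _)
      rw [hj.mem_iff] at this
      exact this.mp (reach_mono (subset_insert _ _) (Set.Subset.refl _) hx)
    · exact reach_mono (subset_insert _ _) (Set.Subset.refl _) hy

theorem card_insert_set {S : Set V} {v : V} (h : v ∉ S) :
    Nat.card (insert v S : Set V) = Nat.card S + 1 := by
  rw [Nat.card_coe_set_eq, Nat.card_coe_set_eq, Set.ncard_insert_of_notMem h (Set.toFinite S)]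

theorem feasible_empty (ends : E → V × V) (r : V) : IsFeasible ends r ∅ := by
  refine ⟨fun e he => absurd he (notMem_empty e), ?_⟩
  rw [rootComp_eq]
  have h : reach ends ∅ {r} = {r} := by
    apply Set.Subset.antisymm
    · exact reach_min (Set.Subset.refl _) (fun e he => absurd he (notMem_empty e))
    · exact sub_reach
  rw [h]
  simp

theorem rank_eq (ends : E → V × V) (r : V) (A : Finset E) :
    rank ends r A + 1 = Nat.card (reach ends A {r}) := by
  classical
  apply le_antisymm
  · -- upper bound
    have hr : r ∈ reach ends A {r} := sub_reach rfl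
    have h0 : 0 < Nat.card (reach ends A {r}) := by
      have : Nonempty (reach ends A {r}) := ⟨⟨r, hr⟩⟩
      exact Nat.card_pos
    have : rank ends r A ≤ Nat.card (reach ends A {r}) - 1 := by
      unfold rank
      apply Finset.sup_le
      intro F hF
      obtain ⟨h1, _, h2⟩ := mem_filter.mp hF
      rw [rootComp_eq] at h2
      have h3 : Nat.card (reach ends F {r}) ≤ Nat.card (reach ends A {r}) :=
        Nat.card_mono (Set.toFinite _) (reach_mono (mem_powerset.mp h1) (Set.Subset.refl _))
      omega
    omega
  · -- a feasible set of the largest size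
    obtain ⟨F, hF, hmax⟩ := (A.powerset.filter (IsFeasible ends r)).exists_max_image Finset.card
      ⟨∅, mem_filter.mpr ⟨empty_mem_powerset _, feasible_empty ends r⟩⟩
    obtain ⟨hFA, hF1, hF2⟩ := mem_filter.mp hF
    rw [mem_powerset] at hFA
    rw [rootComp_eq] at hF1 hF2
    have hle : F.card ≤ rank ends r A := Finset.le_sup (f := Finset.card) hF
    by_cases hc : Closed ends A (reach ends F {r})
    · have h1 : reach ends A {r} ⊆ reach ends F {r} := reach_min sub_reach hc
      have h2 : Nat.card (reach ends A {r}) ≤ Nat.card (reach ends F {r}) :=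
        Nat.card_mono (Set.toFinite _) h1
      omega
    · exfalso
      unfold Closed at hc
      push Not at hc
      obtain ⟨e, he, h1⟩ := hc
      obtain ⟨x, v, hj, hx, hv⟩ : ∃ x v, Joins ends e x v ∧ x ∈ reach ends F {r} ∧
          v ∉ reach ends F {r} := by
        rcases h1 with ⟨h1, h2⟩ | ⟨h1, h2⟩
        · exact ⟨_, _, Or.inl rfl, h1, h2⟩
        · exact ⟨_, _, Or.inr rfl, h2, h1⟩
      have hloc : ∀ f ∈ F, (ends f).1 = v ↔ (ends f).2 = v := by
        intro f hf
        have h2 := hF1 f hf
        have h3 := (reach_closed F {r} f hf).mp h2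
        constructor
        · intro h; exact absurd (h ▸ h2) hv
        · intro h; exact absurd (h ▸ h3) hv
      have heF : e ∉ F := by
        intro h
        have := reach_closed (ends := ends) F {r} e h
        rw [hj.mem_iff] at this
        exact hv (this.mp hx)
      have hr := reach_add hloc hj hx
      have hnew : insert e F ∈ A.powerset.filter (IsFeasible ends r) := by
        rw [mem_filter, mem_powerset]
        refine ⟨insert_subset he hFA, ?_, ?_⟩
        · intro f hf
          rw [rootComp_eq, hr]
          rcases mem_insert.mp hf with rfl | hf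
          · rcases hj with h | h
            · rw [h]; exact Set.mem_insert_of_mem _ hx
            · rw [h]; exact Set.mem_insert _ _
          · exact Set.mem_insert_of_mem _ (hF1 f hf)
        · rw [rootComp_eq, hr, card_insert_set hv, hF2, card_insert_of_notMem heF]
      have := hmax _ hnew
      rw [card_insert_of_notMem heF] at this
      omega

theorem rank_le_card (ends : E → V × V) (r : V) (A : Finset E) : rank ends r A ≤ A.card := by
  classical
  unfold rank
  apply Finset.sup_le
  intro F hF
  exact card_le_card (mem_powerset.mp (mem_filter.mp hF).1)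

theorem rank_mono (ends : E → V × V) (r : V) {A B : Finset E} (h : A ⊆ B) :
    rank ends r A ≤ rank ends r B := by
  have h1 := rank_eq ends r A
  have h2 := rank_eq ends r B
  have h3 : Nat.card (reach ends A {r}) ≤ Nat.card (reach ends B {r}) :=
    Nat.card_mono (Set.toFinite _) (reach_mono h (Set.Subset.refl _))
  omega

/-- the Tutte polynomial for the edges in `F` -/
noncomputable def TF (ends : E → V × V) (r : V) (F : Finset E) : MvPolynomial (Fin 2) ℤ :=
  ∑ A ∈ F.powerset, (MvPolynomial.X 0 - 1) ^ (rank ends r F - rank ends r A) *
    (MvPolynomial.X 1 - 1) ^ (A.card - rank ends r A)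

/-- the leaves at the root for the edges in `F` -/
def LF (ends : E → V × V) (r : V) (F : Finset E) : Set V :=
  {v | v ≠ r ∧ ∃ e ∈ F, Joins ends e r v ∧
    ∀ f ∈ F, (ends f).1 ≠ (ends f).2 → ((ends f).1 = v ∨ (ends f).2 = v) → f = e}

theorem TF_leaf {ends : E → V × V} {r : V} {F : Finset E} {v : V} {e : E} (hv : v ≠ r)
    (he : e ∈ F) (hj : Joins ends e r v)
    (h : ∀ f ∈ F, (ends f).1 ≠ (ends f).2 → ((ends f).1 = v ∨ (ends f).2 = v) → f = e) :
    TF ends r F = MvPolynomial.X 0 * TF ends r (F.erase e) := by
  have hloc : ∀ A ⊆ F.erase e, ∀ f ∈ A, (ends f).1 = v ↔ (ends f).2 = v := by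
    intro A hA f hf
    by_contra hcon
    have hfF := hA hf
    have hne : (ends f).1 ≠ (ends f).2 := by
      intro h1; apply hcon; rw [h1]
    have : f = e := h f (mem_of_mem_erase hfF) hne (by
      by_contra h2
      push Not at h2
      exact hcon (iff_of_false h2.1 h2.2))
    subst this
    exact absurd hfF (notMem_erase _ _)
  have hrank : ∀ A ⊆ F.erase e, rank ends r (insert e A) = rank ends r A + 1 := by
    intro A hA
    have h1 := rank_eq ends r (insert e A)
    have h2 := rank_eq ends r A
    rw [reach_add (hloc A hA) hj (sub_reach rfl),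
      card_insert_set (notMem_reach (hloc A hA) hv)] at h1
    omega
  have hF : insert e (F.erase e) = F := insert_erase he
  unfold TF
  conv_lhs => rw [← hF]
  rw [sum_powerset_insert (notMem_erase e F), hrank _ (subset_refl _), ← sum_add_distrib, mul_sum]
  refine sum_congr rfl fun A hA => ?_
  rw [mem_powerset] at hA
  have heA : e ∉ A := fun h => (notMem_erase e F) (hA h)
  rw [hrank A hA, card_insert_of_notMem heA]
  have h1 := rank_mono ends r hA
  have h2 := rank_le_card ends r A
  have e1 : rank ends r (F.erase e) + 1 - rank ends r A =
      (rank ends r (F.erase e) - rank ends r A) + 1 := by omega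
  have e2 : rank ends r (F.erase e) + 1 - (rank ends r A + 1) =
      rank ends r (F.erase e) - rank ends r A := by omega
  have e3 : A.card + 1 - (rank ends r A + 1) = A.card - rank ends r A := by omega
  rw [e1, e2, e3, pow_succ]
  ring

/-- evaluation at `x = 0` -/
noncomputable def ev (y : ℝ) : MvPolynomial (Fin 2) ℤ →+* ℝ :=
  (MvPolynomial.aeval ![(0 : ℝ), y]).toRingHom

theorem ev_TF (ends : E → V × V) (r : V) [Fintype V] (F : Finset E) (y : ℝ) (hy : y - 1 ≠ 0) :
    Fy ends (fun _ _ => 1) (univ.erase r) F {r} y =
      (-1) ^ ((univ.erase r).card - rank ends r F) * ev y (TF ends r F) := by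
  classical
  unfold Fy Fs TF ev
  rw [map_sum, mul_sum]
  refine sum_congr rfl fun A hA => ?_
  have hAF := mem_powerset.mp hA
  have h1 := rank_mono ends r hAF
  have h2 := rank_le_card ends r A
  have h3 := rank_eq ends r A
  have h4 := rank_eq ends r F
  have hr : ∀ A : Finset E, r ∈ reach ends A {r} := fun A => sub_reach rfl
  -- the number of the reached vertices different from the root
  have hcard : ∀ A : Finset E, ((univ.erase r).filter fun v => v ∈ reach ends A {r}).card =
      rank ends r A := by
    intro A
    have h5 := rank_eq ends r A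
    have h6 : (univ.filter fun v => v ∈ reach ends A {r}).card = Nat.card (reach ends A {r}) := by
      rw [Nat.card_coe_set_eq, ← Set.ncard_coe_finset]
      congr 1
      ext v; simp
    have h7 : (univ.erase r).filter (fun v => v ∈ reach ends A {r}) =
        (univ.filter fun v => v ∈ reach ends A {r}).erase r := by
      ext v; simp only [mem_filter, mem_erase, mem_univ]; tauto
    rw [h7, card_erase_of_mem (mem_filter.mpr ⟨mem_univ _, hr A⟩), h6]
    omega
  have h8 : ∏ v ∈ univ.erase r, fac ends (fun _ => (y - 1)⁻¹) (fun _ => -1) A {r} v =
      (y - 1)⁻¹ ^ rank ends r A * (-1) ^ ((univ.erase r).card - rank ends r A) := by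
    unfold fac
    rw [prod_ite, prod_const, prod_const, hcard]
    congr 2
    have := card_filter_add_card_filter_not (s := (univ.erase r))
      (fun v => v ∈ reach ends A {r})
    rw [hcard] at this
    omega
  rw [h8]
  have hle : rank ends r F ≤ (univ.erase r).card := by
    rw [← hcard F]; exact card_filter_le _ _
  simp only [AlgHom.toRingHom_eq_coe, map_mul, map_pow, map_sub, map_one, RingHom.coe_coe,
    MvPolynomial.aeval_X]
  have e1 : (univ.erase r).card - rank ends r A =
      ((univ.erase r).card - rank ends r F) + (rank ends r F - rank ends r A) := by omega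
  have e2 : (y - 1) ^ A.card = (y - 1) ^ (A.card - rank ends r A) * (y - 1) ^ rank ends r A := by
    rw [← pow_add]; congr 1; omega
  have e3 : (y - 1) ^ rank ends r A * (y - 1)⁻¹ ^ rank ends r A = 1 := by
    rw [← mul_pow, mul_inv_cancel₀ hy, one_pow]
  rw [e1, pow_add, e2]
  have e4 : (![(0 : ℝ), y] 0) - 1 = -1 := by simp
  have e5 : (![(0 : ℝ), y] 1) - 1 = y - 1 := by simp
  rw [e4, e5]
  calc (y - 1) ^ (A.card - rank ends r A) * (y - 1) ^ rank ends r A *
      ((y - 1)⁻¹ ^ rank ends r A * ((-1) ^ ((univ.erase r).card - rank ends r F) *
        (-1) ^ (rank ends r F - rank ends r A))) =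
      ((y - 1) ^ rank ends r A * (y - 1)⁻¹ ^ rank ends r A) *
        ((y - 1) ^ (A.card - rank ends r A) * ((-1) ^ ((univ.erase r).card - rank ends r F) *
        (-1) ^ (rank ends r F - rank ends r A))) := by ring
    _ = _ := by rw [e3]; ring

/-- loops -/
theorem Fy_loops (ends : E → V × V) (ψ : V → ℝ → ℝ) (W : Finset V) (R : Set V) (y : ℝ)
    (K : Finset E) : ∀ L : Finset E, Disjoint K L → (∀ e ∈ L, (ends e).1 = (ends e).2) →
      Fy ends ψ W (K ∪ L) R y = y ^ L.card * Fy ends ψ W K R y := by
  intro L
  induction L using Finset.induction_on with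
  | empty => intro _ _; simp
  | insert e L he ih =>
    intro hd hL
    have heK : e ∉ K := fun h => (disjoint_left.mp hd h) (mem_insert_self _ _)
    have h1 : e ∉ K ∪ L := by
      rw [mem_union]; rintro (h | h)
      · exact heK h
      · exact he h
    have h2 := ih (disjoint_of_subset_right (subset_insert _ _) hd)
      (fun e he => hL e (mem_insert_of_mem he))
    rw [union_insert, card_insert_of_notMem he, pow_succ]
    unfold Fy at h2 ⊢
    rw [Fs_loop h1 (Or.inl (hL e (mem_insert_self _ _))), h2]
    ring

theorem not_dvd (ends : E → V × V) (r : V) (F : Finset E) (hL : LF ends r F = ∅) :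
    ¬ (MvPolynomial.X 0 ∣ TF ends r F) := by
  have := Fintype.ofFinite V
  classical
  rintro ⟨q, hq⟩
  have hev : ∀ y : ℝ, ev y (TF ends r F) = 0 := by
    intro y
    rw [hq, map_mul]
    have : ev y (MvPolynomial.X 0) = 0 := by
      unfold ev
      simp
    rw [this, zero_mul]
  set K := F.filter fun e => (ends e).1 ≠ (ends e).2 with hK
  set L := F.filter fun e => ¬ (ends e).1 ≠ (ends e).2 with hL'
  have hKL : K ∪ L = F := filter_union_filter_not_eq _ _
  have hd : Disjoint K L := disjoint_filter_filter_not _ _ _
  have h1 := nv K.card (fun _ => 0) (univ.erase r) K ({r} : Set V) rfl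
    (fun v hv h => (mem_erase.mp hv).1 h)
    (by
      intro e _
      have : ∀ v : V, v ∈ univ.erase r ∨ v ∈ ({r} : Set V) := by
        intro v
        by_cases hvr : v = r
        · exact Or.inr hvr
        · exact Or.inl (mem_erase.mpr ⟨hvr, mem_univ _⟩)
      exact ⟨this _, this _⟩)
    (fun e he => (mem_filter.mp he).2)
    (by
      intro v hv _ e he b hj hb
      have hbr : b = r := hb
      subst hbr
      have hmem : v ∈ LF ends b F := by
        have he1 : e ∈ K ∧ Inc ends v e := by
          rw [← mem_atv, he]; exact mem_singleton_self _
        refine ⟨(mem_erase.mp hv).1, e, (mem_filter.mp he1.1).1, hj.symm, ?_⟩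
        intro f hf hne hinc
        have : f ∈ atv ends K v := mem_atv.mpr ⟨mem_filter.mpr ⟨hf, hne⟩, hinc⟩
        rw [he, mem_singleton] at this
        exact this
      rw [hL] at hmem
      exact hmem)
  obtain ⟨y, hy, h0, h2⟩ := (h1.and (ev_small 1 one_pos)).exists
  apply hy
  have h3 := Fy_loops ends (fun _ _ => 1) (univ.erase r) {r} y K L hd (by
    intro e he
    have := (mem_filter.mp he).2
    push Not at this
    exact this)
  rw [hKL, ev_TF ends r F y (by linarith), hev, mul_zero] at h3
  have h4 : y ^ L.card ≠ 0 := pow_ne_zero _ h0.ne'
  have h5 := (mul_eq_zero.mp h3.symm).resolve_left h4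
  have h6 : (fun (v : V) (y : ℝ) => y ^ (fun _ => 0 : V → ℕ) v) = fun _ _ => (1 : ℝ) := by
    funext v y; simp
  rw [h6]
  exact h5

theorem main (ends : E → V × V) (r : V) : ∀ (n : ℕ) (F : Finset E), F.card = n →
    ∃ Q : MvPolynomial (Fin 2) ℤ, TF ends r F = MvPolynomial.X 0 ^ (LF ends r F).ncard * Q ∧
      ¬ (MvPolynomial.X 0 ∣ Q) := by
  intro n
  induction n with
  | zero =>
    intro F hF
    have hF0 : F = ∅ := card_eq_zero.mp hF
    have hL : LF ends r F = ∅ := by
      rw [Set.eq_empty_iff_forall_notMem]
      rintro v ⟨_, e, he, _⟩
      rw [hF0] at he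
      exact notMem_empty _ he
    refine ⟨TF ends r F, ?_, not_dvd ends r F hL⟩
    rw [hL]; simp
  | succ n ih =>
    intro F hF
    rcases (LF ends r F).eq_empty_or_nonempty with hL | ⟨v, hv⟩
    · refine ⟨TF ends r F, ?_, not_dvd ends r F hL⟩
      rw [hL]; simp
    · obtain ⟨hvr, e, he, hj, h⟩ := hv
      obtain ⟨Q, hQ, hQ2⟩ := ih (F.erase e) (by rw [card_erase_of_mem he, hF]; rfl)
      refine ⟨Q, ?_, hQ2⟩
      have hL : LF ends r F = insert v (LF ends r (F.erase e)) := by
        ext w
        constructor
        · rintro ⟨hwr, e', he', hj', h'⟩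
          by_cases hwv : w = v
          · exact Or.inl hwv
          · right
            have hee : e' ≠ e := by
              rintro rfl
              rcases hj with h1 | h1 <;> rcases hj' with h2 | h2 <;>
                rw [h1, Prod.mk.injEq] at h2
              · exact hwv h2.2.symm
              · exact hvr h2.2
              · exact hvr h2.1
              · exact hwv h2.1.symm
            exact ⟨hwr, e', mem_erase.mpr ⟨hee, he'⟩, hj',
              fun f hf => h' f (mem_of_mem_erase hf)⟩
        · rintro (rfl | ⟨hwr, e', he', hj', h'⟩)
          · exact ⟨hvr, e, he, hj, h⟩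
          · refine ⟨hwr, e', mem_of_mem_erase he', hj', ?_⟩
            intro f hf hne hinc
            by_cases hfe : f = e
            · subst hfe
              exfalso
              -- `w` is an end of `e`, so `w = v`
              have hwv : w = v := by
                rcases hj with h1 | h1 <;> rw [h1] at hinc <;> rcases hinc with h2 | h2
                · exact absurd h2.symm hwr
                · exact h2.symm
                · exact h2.symm
                · exact absurd h2.symm hwr
              subst hwv
              have hne' : (ends e').1 ≠ (ends e').2 := by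
                rcases hj' with h1 | h1 <;> rw [h1]
                · exact hwr.symm
                · exact hwr
              have hinc' : (ends e').1 = w ∨ (ends e').2 = w := by
                rcases hj' with h1 | h1 <;> rw [h1]
                · exact Or.inr rfl
                · exact Or.inl rfl
              have := h e' (mem_of_mem_erase he') hne' hinc'
              exact (mem_erase.mp he').1 this
            · exact h' f (mem_erase.mpr ⟨hfe, hf⟩) hne hinc
      have hvn : v ∉ LF ends r (F.erase e) := by
        rintro ⟨_, e', he', hj', _⟩
        have hne' : (ends e').1 ≠ (ends e').2 := by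
          rcases hj' with h1 | h1 <;> rw [h1]
          · exact hvr.symm
          · exact hvr
        have hinc' : (ends e').1 = v ∨ (ends e').2 = v := by
          rcases hj' with h1 | h1 <;> rw [h1]
          · exact Or.inr rfl
          · exact Or.inl rfl
        exact (mem_erase.mp he').1 (h e' (mem_of_mem_erase he') hne' hinc')
      rw [hL, Set.ncard_insert_of_notMem hvn (Set.toFinite _), TF_leaf hvr he hj h, hQ, pow_succ]
      ring

omit [Finite V] [DecidableEq V] [DecidableEq E] in
/-- Let a finite rooted graph (loops and multiple edges allowed) be given by the ends of its edges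
and its root `r`. A power `x^k` divides its Tutte polynomial in `ℤ[x, y]` if and only if `k` is at
most the number of the leaves incident to the root. -/
theorem result (V E : Type) [Finite V] [Fintype E] (ends : E → V × V) (r : V) (k : ℕ) :
    MvPolynomial.X 0 ^ k ∣ tutte ends r ↔ k ≤ (rootLeaves ends r).ncard := by
  classical
  obtain ⟨Q, hQ, hQ2⟩ := main ends r _ univ rfl
  have h1 : tutte ends r = TF ends r univ := by
    unfold tutte TF
    rw [powerset_univ]
  have h2 : rootLeaves ends r = LF ends r univ := by
    ext v
    constructor
    · rintro ⟨h1, e, h2, h3⟩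
      exact ⟨h1, e, mem_univ _, h2, fun f _ => h3 f⟩
    · rintro ⟨h1, e, _, h2, h3⟩
      exact ⟨h1, e, h2, fun f => h3 f (mem_univ _)⟩
  rw [h1, h2, hQ]
  constructor
  · intro h
    by_contra hcon
    push Not at hcon
    have h3 : MvPolynomial.X 0 ^ ((LF ends r univ).ncard + 1) ∣
        MvPolynomial.X 0 ^ (LF ends r univ).ncard * Q := (pow_dvd_pow _ hcon).trans h
    rw [pow_succ] at h3
    have h4 : (MvPolynomial.X 0 : MvPolynomial (Fin 2) ℤ) ^ (LF ends r univ).ncard ≠ 0 :=
      pow_ne_zero _ (MvPolynomial.X_ne_zero 0)
    exact hQ2 ((mul_dvd_mul_iff_left h4).mp h3)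
  · intro h
    exact (pow_dvd_pow _ h).trans (dvd_mul_right _ _)

end Pool.Agent.Results.MP_4c49f5_co.RootLeaves
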